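import Pool.Agent.Helper80.Stack.Goals

set_option autoImplicit false

/-!
# THETA: a chord path splits a region
-/

namespace Pool.Agent.Helper92.Stk

open Classical Pool.Agent.Helper80.Stk

variable {W Tr : Type}

lemma add_ne {a b : ZMod 2} (h : a + b ≠ 0) : a ≠ 0 ∨ b ≠ 0 := by
  by_contra h'
  push Not at h'
  rw [h'.1, h'.2] at h
  exact h (by simp)

/-- Consecutive vertices of a simple closed walk of length at least three. -/
lemma cyc_consec {l a b : List W} {u v : W} (hl : l.Nodup) (h3 : 3 ≤ l.length)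
    (h : l = a ++ u :: v :: b) : cyc l u v ≠ 0 := by
  have h1 : cyc l = cyc (u :: v :: (b ++ a)) := by
    rw [h, cyc_rotate]
    rfl
  have h2 : (u :: v :: (b ++ a)).Nodup := by
    have hp : (u :: v :: (b ++ a)).Perm l := by
      rw [h]
      exact (List.perm_append_comm (l₁ := u :: v :: b) (l₂ := a))
    exact (hp.nodup_iff).mpr hl
  have h4 : b ++ a ≠ [] := by
    intro h5
    have h6 : b.length + a.length = 0 := by
      rw [← List.length_append, h5]; rfl
    rw [h] at h3
    simp only [List.length_append, List.length_cons] at h3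
    omega
  rw [h1]
  obtain ⟨c, y, hc⟩ := List.eq_nil_or_concat (b ++ a) |>.resolve_left h4
  rw [List.concat_eq_append] at hc
  rw [hc] at h2 ⊢
  have hyu : y ≠ u := by
    rintro rfl
    simp at h2
  have hyv : y ≠ v := by
    rintro rfl
    simp at h2
  have huv : u ≠ v := by
    rintro rfl
    simp at h2
  have e1 : cyc (u :: v :: (c ++ [y])) = edg u v + (pth (v :: (c ++ [y])) + edg y u) := by
    rw [cyc_cons]
    have : u :: (v :: (c ++ [y]) ++ [u]) = u :: v :: (c ++ [y] ++ [u]) := rfl
    rw [this, pth_cons]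
    have h7 : v :: (c ++ [y] ++ [u]) = (v :: c) ++ y :: [u] := by simp
    rw [h7, pth_append, pth_pair]
    simp
  rw [e1]
  simp only [Pi.add_apply]
  rw [edg_apply huv]
  have e2 : pth (v :: (c ++ [y])) u v = 0 := by
    apply pth_zero_left
    exact (List.nodup_cons.mp h2).1
  have e3 : edg y u u v = 0 := by
    by_contra h8
    obtain ⟨_, ⟨h9, _⟩ | ⟨_, h9⟩⟩ := edg_ne h8
    · exact hyu h9.symm
    · exact hyv h9.symm
  rw [e2, e3]
  simp

lemma chain_mem {R : W → W → Prop} {l a b : List W} {u v : W} (h : List.IsChain R l)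
    (he : l = a ++ u :: v :: b) : R u v := by
  rw [he] at h
  have h1 := (List.isChain_append.mp h).2.1
  exact (List.isChain_cons_cons.mp h1).1

theorem pf_Theta (hC : StmtCircuit) : StmtTheta := by
  intro W Tr _ _ K S p q l₁ l₂ P ht0 hbd hnd hch
  have hlnd : (p :: (l₁ ++ q :: l₂)).Nodup := (List.nodup_append.mp hnd).1
  -- `S` is non-empty
  have hSne : S.Nonempty := by
    cases P with
    | nil =>
      obtain ⟨t, ht, _⟩ := (List.isChain_cons_cons.mp hch).1
      exact ⟨t, ht⟩
    | cons y P =>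
      obtain ⟨t, ht, _⟩ := (List.isChain_cons_cons.mp hch).1
      exact ⟨t, ht⟩
  -- length at least three
  have hlen : 3 ≤ (p :: (l₁ ++ q :: l₂)).length := by
    by_contra h3
    simp only [List.length_cons, List.length_append] at h3
    have h4 : l₁ = [] := List.eq_nil_of_length_eq_zero (by omega)
    have h5 : l₂ = [] := List.eq_nil_of_length_eq_zero (by omega)
    subst h4; subst h5
    have h6 : cyc (p :: ([] ++ q :: [])) = (0 : W → W → ZMod 2) := by
      rw [cyc_split]
      simp only [List.nil_append]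
      rw [pth_pair, pth_pair, edg_comm q p, ch_add_self]
    rw [h6] at hbd
    have := K.uniq S ht0 hbd
    rw [this] at hSne
    exact Finset.not_nonempty_empty hSne
  have hrev : pth (q :: (P.reverse ++ [p])) = pth (p :: (P ++ [q])) := by
    have : q :: (P.reverse ++ [p]) = (p :: (P ++ [q])).reverse := by simp
    rw [this, pth_reverse]
  have hG : cyc (p :: (l₁ ++ q :: P.reverse)) =
      pth (p :: (l₁ ++ [q])) + pth (p :: (P ++ [q])) := by
    rw [cyc_split, hrev]
  -- pairs on the first arc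
  have harc : ∀ u v, pth (p :: (l₁ ++ [q])) u v ≠ 0 → cyc (p :: (l₁ ++ q :: l₂)) u v ≠ 0 := by
    intro u v h
    obtain ⟨a, b, h1 | h1⟩ := pth_ne h
    · have h2 : p :: (l₁ ++ q :: l₂) = a ++ u :: v :: (b ++ l₂) := by
        have h3 : p :: (l₁ ++ q :: l₂) = (p :: (l₁ ++ [q])) ++ l₂ := by simp
        rw [h3, h1]; simp
      exact cyc_consec hlnd hlen h2
    · have h2 : p :: (l₁ ++ q :: l₂) = a ++ v :: u :: (b ++ l₂) := by
        have h3 : p :: (l₁ ++ q :: l₂) = (p :: (l₁ ++ [q])) ++ l₂ := by simp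
        rw [h3, h1]; simp
      rw [cyc_symm]
      exact cyc_consec hlnd hlen h2
  have hpath : ∀ u v, pth (p :: (P ++ [q])) u v ≠ 0 → ∃ t ∈ S, u ∈ K.vt t ∧ v ∈ K.vt t := by
    intro u v h
    obtain ⟨a, b, h1 | h1⟩ := pth_ne h
    · exact chain_mem hch h1
    · obtain ⟨t, h2, h3, h4⟩ := chain_mem hch h1
      exact ⟨t, h2, h4, h3⟩
  obtain ⟨S₁, hS1, hb1⟩ := K.fill (cyc (p :: (l₁ ++ q :: P.reverse))) (cyc_symm _) (cyc_diag _)
    (by
      intro u v h
      rw [hG] at h
      rcases add_ne h with h1 | h1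
      · obtain ⟨t, _, h2, h3⟩ := K.edge_mem hbd (harc u v h1)
        exact ⟨t, h2, h3⟩
      · obtain ⟨t, _, h2, h3⟩ := hpath u v h1
        exact ⟨t, h2, h3⟩) (cyc_sum _)
  have hsub : S₁ ⊆ S := by
    have hR : ∀ u v, bd K.vt (S₁ \ S) u v ≠ 0 → cyc (p :: (l₁ ++ q :: l₂)) u v ≠ 0 := by
      intro u v h h0
      apply h
      by_cases huv : u = v
      · subst huv; exact bd_diag _ _ _
      · have h1 : bd K.vt S u v = 0 := by rw [hbd]; exact h0
        rcases K.all_or_none huv h1 with h2 | h2
        · rw [bd_eq_sum]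
          apply Finset.sum_eq_zero
          intro t ht
          rw [if_neg]
          rintro ⟨_, h3, h4⟩
          exact (Finset.mem_sdiff.mp ht).2 (h2 t h3 h4)
        · have h3 : bd K.vt (S₁ \ S) u v = bd K.vt S₁ u v := by
            unfold bd
            rw [if_neg huv, if_neg huv]
            congr 2
            ext t
            simp only [Finset.mem_filter, Finset.mem_sdiff]
            constructor
            · rintro ⟨⟨h4, _⟩, h5⟩
              exact ⟨h4, h5⟩
            · rintro ⟨h4, h5⟩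
              exact ⟨⟨h4, h2 t h5.1 h5.2⟩, h5⟩
          rw [h3, hb1, hG]
          simp only [Pi.add_apply]
          have h4 : pth (p :: (l₁ ++ [q])) u v = 0 := by
            by_contra h5
            exact harc u v h5 h0
          have h5 : pth (p :: (P ++ [q])) u v = 0 := by
            by_contra h6
            obtain ⟨t, h7, h8, h9⟩ := hpath u v h6
            exact h2 t h8 h9 h7
          rw [h4, h5, add_zero]
    have hR0 : K.t0 ∉ S₁ \ S := fun h => hS1 (Finset.mem_sdiff.mp h).1
    rcases hC W (p :: (l₁ ++ q :: l₂)) (bd K.vt (S₁ \ S)) hlnd (bd_symm _ _) (bd_diag _ _)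
      (bd_sum _ K.card3 _) hR with h | h
    · exact Finset.sdiff_eq_empty_iff_subset.mp (K.uniq _ hR0 h)
    · exfalso
      have h1 : S₁ \ S = S := K.bd_inj hR0 ht0 (by rw [h, hbd])
      obtain ⟨t, ht⟩ := hSne
      have h2 := ht
      rw [← h1] at h2
      exact (Finset.mem_sdiff.mp h2).2 ht
  refine ⟨S₁, hsub, hb1, ?_⟩
  rw [bd_sdiff _ hsub, hbd, hb1, hG, cyc_split, cyc_split]
  funext u v
  simp only [Pi.add_apply]
  have := z2 (pth (p :: (l₁ ++ [q])) u v)
  calc _ = (pth (p :: (l₁ ++ [q])) u v + pth (p :: (l₁ ++ [q])) u v) +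
      (pth (q :: (l₂ ++ [p])) u v + pth (p :: (P ++ [q])) u v) := by ring
    _ = _ := by rw [this, zero_add]

end Pool.Agent.Helper92.Stk
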